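import Pool.Agent.MP_23c9d7_co.Defs
import Pool.Agent.MP_23c9d7_co.Mg.Upper

namespace Pool.Agent.Results.MP_23c9d7_co.AffineGroup

open Pool.Agent.MP_23c9d7_co

/-- The convex polytope dimension of the affine group of a finite field with `q` elements
is `q - 1`. -/
theorem result (F : Type*) [Field F] [Fintype F] :
    IsLeast {d : ℕ | HasPolytope d (F ≃ᵃ[F] F)} (Fintype.card F - 1) :=
  main F

end Pool.Agent.Results.MP_23c9d7_co.AffineGroup
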