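import Pool.Agent.MP_23c9d7_co.Defs
import Pool.Agent.MP_23c9d7_co.H90.Main

namespace Pool.Agent.Results.MP_23c9d7_co.SymmetricGroup

open Pool.Agent.MP_23c9d7_co

/-- The convex polytope dimension of the symmetric group on `n` letters is `n - 1`. -/
theorem result (n : ℕ) : IsLeast {d : ℕ | HasPolytope d (Equiv.Perm (Fin n))} (n - 1) :=
  sym_main n

end Pool.Agent.Results.MP_23c9d7_co.SymmetricGroup
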